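import Pool.Agent.Helper39.Anco.Fin
import Pool.Agent.Helper39.Anco.BrA
import Pool.Agent.Helper39.Anco.BrB
import Pool.Agent.Helper39.Anco.BrC
import Pool.Agent.Helper39.Anco.BrD

/-!
# MP_738e39_gt, Q1, full answer (yes)

A closed connected smooth manifold which admits almost nonnegative curvature operator has
nonnegative Euler characteristic.

The proof (Pool/Agent/Helper39/Anco/*) is the quantitative statement
`ANCO.euler_nonneg_of_pinched`: for every `n` there is `ε(n) > 0` such that every closed connected
`n`-manifold with a metric of diameter `≤ 1` and curvature operator `≥ -ε(n)` has `χ ≥ 0`.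
Ingredients: Hodge theory for `d + δ`, the Weitzenboeck formula, a Poincaré inequality with a
constant depending only on `n` (Li-Yau), a truncation argument which shows that the space of small
eigenforms is, at a good point, almost a graded subalgebra of the Clifford algebra, and a trace
argument which shows that every graded subalgebra `A` (containing `1`) of the Clifford algebra
has `∑ (-1)^p dim A^p ≥ 0`.
-/

open scoped ContDiff Topology Manifold
open Set

noncomputable section
namespace Pool.Agent.Results.MP_738e39_gt.EulerNonneg

theorem admits {n : ℕ} {M : Type} [TopologicalSpace M]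
    [ChartedSpace (EuclideanSpace ℝ (Fin n)) M] [IsManifold (𝓡 n) ∞ M]
    (h : ANCOS.AdmitsANCO n M) : ANCO.AdmitsANCO n M := by
  intro ε hε
  obtain ⟨g, hd, hc⟩ := h ε hε
  obtain ⟨G, hG⟩ := ANCO.bra_exists g
  exact ⟨G, ANCO.brc_diam hG hd, fun x y hy => ANCO.brb_curv (G.isMet x) (hG x) hy (hc x y hy)⟩

/-- **MP_738e39_gt**: a closed connected smooth manifold which admits almost nonnegative curvature
operator has nonnegative Euler characteristic. -/
theorem result (n : ℕ) (M : Type) [TopologicalSpace M]
    [ChartedSpace (EuclideanSpace ℝ (Fin n)) M] [IsManifold (𝓡 n) ∞ M]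
    [CompactSpace M] [T2Space M] [ConnectedSpace M]
    (h : ANCOS.AdmitsANCO n M) : 0 ≤ ANCOS.eulerChar n M := by
  obtain ⟨ε, hε, hmain⟩ := ANCO.euler_nonneg_of_pinched n
  obtain ⟨g, hd, hc⟩ := admits h ε hε
  have h1 := hmain M g hd hc
  have h2 : ANCOS.eulerChar n M = ANCO.eulerChar n M := by
    unfold ANCOS.eulerChar ANCO.eulerChar
    simp only [ANCO.brd_betti]
  rw [h2]
  exact h1

end Pool.Agent.Results.MP_738e39_gt.EulerNonneg
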